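import Mathlib
import Pool.Agent.Lib.MP_f02ea4_nt.QR.Core

/-! # Simultaneous small linear forms: the numerical choice of the parameters -/

set_option autoImplicit false
set_option linter.unusedSectionVars false

namespace Pool.Agent.MP_f02ea4.QR

open Finset Real

variable {H B : Type} [Fintype H] [Fintype B] [DecidableEq H] [DecidableEq B]

lemma rows_ineq (n Q m : ℕ) (hn : 1 ≤ n) :
    2 * ((4 * n * m) ^ n * Q) ≤ 3 * Q * ((4 * n - 1) * m) ^ n := by
  have hn0 : (0 : ℝ) < n := by exact_mod_cast hn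
  have h1 : (3 / 4 : ℝ) * (4 * n) ^ n ≤ (4 * n - 1) ^ n := by
    have h2 := one_add_mul_le_pow (a := -(1 / (4 * n) : ℝ)) (by
      have : 1 / (4 * (n : ℝ)) ≤ 1 := by
        rw [div_le_one (by positivity)]
        have : (1 : ℝ) ≤ n := by exact_mod_cast hn
        linarith
      linarith) n
    have h3 : (1 : ℝ) + n * -(1 / (4 * n)) = 3 / 4 := by
      field_simp
      norm_num
    rw [h3] at h2
    have h4 : (4 * n - 1 : ℝ) = (4 * n) * (1 + -(1 / (4 * n))) := by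
      field_simp
      ring
    rw [h4, mul_pow (4 * (n : ℝ)) (1 + -(1 / (4 * (n : ℝ)))), mul_comm (3 / 4 : ℝ)]
    exact mul_le_mul_of_nonneg_left h2 (by positivity)
  have h5 : ((4 * n - 1 : ℕ) : ℝ) = 4 * n - 1 := by
    rw [Nat.cast_sub (by omega)]
    push_cast
    ring
  have h6 : (2 * ((4 * n * m) ^ n * Q) : ℝ) ≤ 3 * Q * (((4 * n - 1 : ℕ) : ℝ) * m) ^ n := by
    rw [h5, mul_pow, mul_pow (4 * n - 1 : ℝ)]
    have h7 : (0 : ℝ) ≤ (m : ℝ) ^ n * Q := by positivity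
    have h8 : (0 : ℝ) ≤ (4 * n : ℝ) ^ n := by positivity
    calc (2 * ((4 * n : ℝ) ^ n * m ^ n * Q) : ℝ) = (2 * (4 * n : ℝ) ^ n) * ((m : ℝ) ^ n * Q) := by
          ring
      _ ≤ (3 * (4 * n - 1 : ℝ) ^ n) * ((m : ℝ) ^ n * Q) := by
          apply mul_le_mul_of_nonneg_right _ h7
          linarith
      _ = _ := by ring
  exact_mod_cast h6

/-- `log M ≤ M / 200` -/
lemma log_le_div {M : ℝ} (hM : 2000 ≤ M) : log M ≤ M / 200 := by
  have h1 : log M = log 2000 + log (M / 2000) := by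
    rw [← log_mul (by norm_num) (by positivity)]
    congr 1
    ring
  have h2 : log (2000 : ℝ) ≤ 11 * log 2 := by
    have h3 : log (2000 : ℝ) ≤ log (2 ^ 11 : ℝ) := log_le_log (by norm_num) (by norm_num)
    rw [log_pow] at h3
    exact_mod_cast h3
  have h4 : log (M / 2000) ≤ M / 2000 - 1 := log_le_sub_one_of_pos (by positivity)
  have h5 : log 2 < (0.6931471808 : ℝ) := log_two_lt_d9
  linarith

lemma four_le_exp_two : (4 : ℝ) ≤ exp 2 := by
  have h11 : (2 : ℝ) ≤ exp 1 := by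
    have := add_one_le_exp (1 : ℝ)
    linarith
  have h12 : exp 2 = exp 1 * exp 1 := by rw [← exp_add]; norm_num
  rw [h12]
  nlinarith

lemma aux1 {M : ℝ} (hM : 2000 ≤ M) : 1 + (M / 500 * (M / 4) + 4 * (M / 200)) ≤ M ^ 2 := by
  nlinarith

lemma aux2 {M : ℝ} (hM : 2000 ≤ M) : 8 ≤ M ^ 2 := by nlinarith

lemma aux3 {M d T w H : ℝ} (hM : 2000 ≤ M) (hd : 4 ≤ d) (hT : 1000 * T ≤ M)
    (hw : M * d * M ≤ w) (hH : H ≤ 2 * T * d) : M / 4 - w < -(2 * H) := by
  have h4 : 4 * T * d ≤ M * d * (1 / 2) * M := by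
    have h5 : 4 * T ≤ M * (1 / 2) * M := by nlinarith
    calc 4 * T * d ≤ (M * (1 / 2) * M) * d := mul_le_mul_of_nonneg_right h5 (by linarith)
      _ = _ := by ring
  have h6 : M ≤ M * d * (1 / 4) * M := by
    have h7 : 4 ≤ M * d := by nlinarith
    calc M = (4 * (1 / 4)) * M := by ring
      _ ≤ (M * d * (1 / 4)) * M := by
          apply mul_le_mul_of_nonneg_right _ (by linarith)
          linarith
  have h8 : M * d * M = M * d * (1 / 2) * M + M * d * (1 / 4) * M + M * d * (1 / 4) * M := by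
    ring
  linarith

lemma aux4 {M d : ℝ} (hM : 2000 ≤ M) (hd : 0 ≤ d) :
    5 * (M ^ 9 * d) * (M / 4) * 3 ≤ M ^ 12 * d / 2 := by
  have e1 : 5 * (M ^ 9 * d) * (M / 4) * 3 = 15 / 4 * (M ^ 10 * d) := by ring
  have e2 : M ^ 12 * d / 2 = (M * M / 2) * (M ^ 10 * d) := by ring
  rw [e1, e2]
  apply mul_le_mul_of_nonneg_right _ (by positivity)
  nlinarith

lemma aux5 {M d P Q w : ℝ} (hM : 2000 ≤ M) (hd : 4 ≤ d) (hP0 : 0 ≤ P) (hQ : Q ≤ P)
    (hP : P ≤ 5 * (M ^ 9 * d)) (hw : M ^ 12 * d ≤ w) (hw2 : d * M ≤ M ^ 12 * d) :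
    P * (M / 4) + Q * (M / 4) + P + P / 40 + (M / 4 - w) ≤ -2 := by
  have h9 : Q * (M / 4) ≤ P * (M / 4) := mul_le_mul_of_nonneg_right hQ (by positivity)
  have h11 : P + P / 40 ≤ P * (M / 4) := by
    calc P + P / 40 = P * (41 / 40) := by ring
      _ ≤ P * (M / 4) := mul_le_mul_of_nonneg_left (by linarith) hP0
  have h12 : P * (M / 4) ≤ 5 * (M ^ 9 * d) * (M / 4) :=
    mul_le_mul_of_nonneg_right hP (by positivity)
  have h13 := aux4 hM (by linarith : 0 ≤ d)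
  have h14 : M / 4 + 2 ≤ M ^ 12 * d / 2 := by
    have h16 : 4 * M ≤ d * M := mul_le_mul_of_nonneg_right hd (by linarith)
    linarith
  linarith

theorem CD.sharp_num (D : CD H B) (hD : D.OK) {s : ℕ} (hs : 1 ≤ s)
    (hH : Fintype.card H = s + 2) (hU : D.U.card = s + 1) (hB : Fintype.card B = s + 1)
    {E W Y w : ℝ} (hE1 : 1 ≤ E) (hE : ∀ h ∈ D.U, log (D.r h : ℝ) ≤ E) (hW1 : 1 ≤ W)
    (hW : ∀ q, log (D.u q : ℝ) ≤ W) (hY1 : 1 ≤ Y) (hTh : ∑ h, log (D.r h : ℝ) ≤ exp Y)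
    (hF : ∀ q h, |(D.F q h : ℝ)| ≤ exp Y) (hLam : ∀ q, |D.Lam q| ≤ 2 * exp (-w))
    {M d : ℕ} (hM : 1000 * ((s : ℝ) + 1) * Y ≤ M)
    (hd : (4 * E * W) ^ (s + 1) * (M : ℝ) ^ (33 * s) < (d : ℝ) ^ s)
    (hdlog : log (d : ℝ) ≤ M / 5) (hdE : 4 * E * W ≤ d) :
    w < (M : ℝ) ^ 12 * d := by
  by_contra hw
  rw [not_lt] at hw
  have hsr : (1 : ℝ) ≤ s := by exact_mod_cast hs
  have hT2 : (2 : ℝ) ≤ (s : ℝ) + 1 := by linarith
  set Mr : ℝ := (M : ℝ) with hMr
  set dr : ℝ := (d : ℝ) with hdr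
  have hMT : 1000 * ((s : ℝ) + 1) ≤ Mr := (le_mul_of_one_le_right (by positivity) hY1).trans hM
  have hM2000 : 2000 ≤ Mr := by linarith
  have hM0 : 0 < Mr := by linarith
  have hM1 : 1 ≤ Mr := by linarith
  have hYM : Y ≤ Mr / 2000 := by
    have : 2000 * Y ≤ 1000 * ((s : ℝ) + 1) * Y :=
      mul_le_mul_of_nonneg_right (by linarith) (by linarith)
    linarith
  have hEW1 : 1 ≤ E * W := one_le_mul_of_one_le_of_one_le hE1 hW1
  have hEW : 4 ≤ 4 * E * W := by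
    rw [mul_assoc]
    linarith
  have hd4 : 4 ≤ dr := hEW.trans hdE
  have hd0 : 0 < dr := by linarith
  have hlogM : log Mr ≤ Mr / 200 := log_le_div hM2000
  have hMexp : Mr ≤ exp (Mr / 200) := by
    rwa [← log_le_iff_le_exp hM0]
  have hdexp : dr ≤ exp (Mr / 5) := by
    rwa [← log_le_iff_le_exp hd0]
  have hMd : ∀ k : ℕ, Mr ^ k * dr ≤ exp (k * (Mr / 200) + Mr / 5) := by
    intro k
    rw [exp_add, exp_nat_mul]
    exact mul_le_mul (pow_le_pow_left₀ hM0.le hMexp k) hdexp hd0.le (by positivity)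
  -- the numbers
  obtain ⟨x, hx⟩ : ∃ x : ℕ, x = ⌊dr / E⌋₊ := ⟨_, rfl⟩
  obtain ⟨y, hy⟩ : ∃ y : ℕ, y = ⌊dr / W⌋₊ := ⟨_, rfl⟩
  have hE0 : 0 < E := by linarith
  have hW0 : 0 < W := by linarith
  have hfl : ∀ z : ℝ, 1 ≤ z → z / 2 ≤ (⌊z⌋₊ : ℝ) ∧ 1 ≤ ⌊z⌋₊ ∧ (⌊z⌋₊ : ℝ) ≤ z := by
    intro z hz
    have h1 : 1 ≤ ⌊z⌋₊ := by
      apply Nat.le_floor
      push_cast
      exact hz
    have h2 := Nat.lt_floor_add_one z
    have h3 : (1 : ℝ) ≤ (⌊z⌋₊ : ℝ) := by exact_mod_cast h1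
    exact ⟨by linarith, h1, Nat.floor_le (by linarith)⟩
  have hEEW : E ≤ E * W := le_mul_of_one_le_right hE0.le hW1
  have hWEW : W ≤ E * W := le_mul_of_one_le_left hW0.le hE1
  have hdE' : 4 * (E * W) ≤ dr := by
    rw [← mul_assoc]
    exact hdE
  have hdE1 : 1 ≤ dr / E := by
    rw [le_div_iff₀ hE0]
    linarith
  have hdW1 : 1 ≤ dr / W := by
    rw [le_div_iff₀ hW0]
    linarith
  obtain ⟨hx2, hx1, hx3⟩ := hfl _ hdE1
  obtain ⟨hy2, hy1, hy3⟩ := hfl _ hdW1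
  rw [← hx] at hx2 hx1 hx3
  rw [← hy] at hy2 hy1 hy3
  have hxE : (x : ℝ) * E ≤ dr := by rwa [le_div_iff₀ hE0] at hx3
  have hyW : (y : ℝ) * W ≤ dr := by rwa [le_div_iff₀ hW0] at hy3
  have hxd : (x : ℝ) ≤ dr := by
    have : (x : ℝ) ≤ x * E := le_mul_of_one_le_right (Nat.cast_nonneg _) hE1
    linarith
  have hyd : (y : ℝ) ≤ dr := by
    have : (y : ℝ) ≤ y * W := le_mul_of_one_le_right (Nat.cast_nonneg _) hW1
    linarith
  set Q : ℕ := M ^ 4 with hQ
  have hQr : (Q : ℝ) = Mr ^ 4 := by rw [hQ]; push_cast; rfl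
  set m : ℕ := 4131 * (s + 1) * Q * d with hm
  have hmr : (m : ℝ) = 4131 * (s + 1) * Mr ^ 4 * dr := by
    rw [hm]; push_cast; rw [hQr, ← hdr]
  set T0 : ℕ := 12 * (s + 2) ^ 2 * Q * m with hT0
  have hT0r : (T0 : ℝ) = 12 * (s + 2) ^ 2 * Mr ^ 4 * m := by
    rw [hT0]; push_cast; rw [hQr]
  set T : ℝ := (s : ℝ) + 1 with hTdef
  have hT0' : 0 < T := by linarith
  have hs2 : (s : ℝ) + 2 = T + 1 := by rw [hTdef]; ring
  have hT1T : T + 1 ≤ 2 * T := by linarith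
  have hht : ∀ a b : ℕ, D.ht a b ≤ a * (T * E) + b * (T * W) := by
    intro a b
    unfold CD.ht
    have h1 : ∑ h ∈ D.U, log (D.r h : ℝ) ≤ T * E := by
      refine (Finset.sum_le_sum hE).trans ?_
      rw [Finset.sum_const, hU, nsmul_eq_mul]
      push_cast
      exact le_rfl
    have h2 : ∑ q, log (D.u q : ℝ) ≤ T * W := by
      refine (Finset.sum_le_sum fun q _ => hW q).trans ?_
      rw [Finset.sum_const, Finset.card_univ, hB, nsmul_eq_mul]
      push_cast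
      exact le_rfl
    have ha : (0 : ℝ) ≤ a := Nat.cast_nonneg _
    have hb : (0 : ℝ) ≤ b := Nat.cast_nonneg _
    exact add_le_add (mul_le_mul_of_nonneg_left h1 ha) (mul_le_mul_of_nonneg_left h2 hb)
  have hhtx : D.ht x y ≤ 2 * T * dr := by
    refine (hht x y).trans ?_
    calc (x : ℝ) * (T * E) + y * (T * W) = T * (x * E) + T * (y * W) := by ring
      _ ≤ T * dr + T * dr := add_le_add (mul_le_mul_of_nonneg_left hxE hT0'.le)
          (mul_le_mul_of_nonneg_left hyW hT0'.le)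
      _ = _ := by ring
  have hhtx1 : D.ht (4 * Q * x) (4 * Q * y) ≤ 8 * T * Mr ^ 4 * dr := by
    refine (hht _ _).trans ?_
    push_cast
    rw [hQr]
    calc (4 * Mr ^ 4 * (x : ℝ)) * (T * E) + 4 * Mr ^ 4 * y * (T * W)
        = 4 * Mr ^ 4 * T * (x * E) + 4 * Mr ^ 4 * T * (y * W) := by ring
      _ ≤ 4 * Mr ^ 4 * T * dr + 4 * Mr ^ 4 * T * dr :=
          add_le_add (mul_le_mul_of_nonneg_left hxE (by positivity))
          (mul_le_mul_of_nonneg_left hyW (by positivity))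
      _ = _ := by ring
  -- basic facts about sizes
  have hM4 : (1 : ℝ) ≤ Mr ^ 4 := one_le_pow₀ hM1
  have hTd1 : 1 ≤ T * Mr ^ 4 * dr := by
    calc (1 : ℝ) = 1 * 1 * 1 := by ring
      _ ≤ T * Mr ^ 4 * dr := by gcongr <;> linarith
  have hdM : dr ≤ Mr ^ 12 * dr := le_mul_of_one_le_left hd0.le (one_le_pow₀ hM1)
  -- `T0 ≤ M ^ 11 d`
  have hT0le : (T0 : ℝ) ≤ Mr ^ 11 * dr := by
    rw [hT0r, hmr, hs2]
    have h1 : (12 * (T + 1) ^ 2 * 4131 * T : ℝ) ≤ Mr ^ 3 := by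
      have h2 : (T + 1) ^ 2 ≤ (2 * T) ^ 2 := pow_le_pow_left₀ (by linarith) hT1T 2
      calc (12 * (T + 1) ^ 2 * 4131 * T : ℝ) ≤ 12 * (2 * T) ^ 2 * 4131 * T := by gcongr
        _ = 198288 * T ^ 3 := by ring
        _ ≤ 10 ^ 9 * T ^ 3 := by
            apply mul_le_mul_of_nonneg_right _ (by positivity)
            norm_num
        _ = (1000 * T) ^ 3 := by ring
        _ ≤ Mr ^ 3 := pow_le_pow_left₀ (by positivity) hMT 3
    calc 12 * (T + 1) ^ 2 * Mr ^ 4 * (4131 * T * Mr ^ 4 * dr)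
        = (12 * (T + 1) ^ 2 * 4131 * T) * (Mr ^ 8 * dr) := by ring
      _ ≤ Mr ^ 3 * (Mr ^ 8 * dr) := mul_le_mul_of_nonneg_right h1 (by positivity)
      _ = _ := by ring
  -- `K ≤ M ^ 6 d`
  set K : ℕ := 4 * (s + 2) * m with hK
  have hKr : (K : ℝ) = 4 * (T + 1) * m := by
    rw [hK]; push_cast; rw [hTdef]; ring
  have hKle : (K : ℝ) ≤ Mr ^ 6 * dr := by
    rw [hKr, hmr]
    have h1 : 4 * (T + 1) * (4131 * T) ≤ Mr ^ 2 := by
      calc 4 * (T + 1) * (4131 * T) ≤ 4 * (2 * T) * (4131 * T) := by gcongr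
        _ = 33048 * T ^ 2 := by ring
        _ ≤ 10 ^ 6 * T ^ 2 := by
            apply mul_le_mul_of_nonneg_right _ (by positivity)
            norm_num
        _ = (1000 * T) ^ 2 := by ring
        _ ≤ Mr ^ 2 := pow_le_pow_left₀ (by positivity) hMT 2
    calc 4 * (T + 1) * (4131 * T * Mr ^ 4 * dr) = 4 * (T + 1) * (4131 * T) * (Mr ^ 4 * dr) := by
          ring
      _ ≤ Mr ^ 2 * (Mr ^ 4 * dr) := mul_le_mul_of_nonneg_right h1 (by positivity)
      _ = _ := by ring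
  have hKexp : (K : ℝ) ≤ exp (Mr / 4) := by
    refine hKle.trans ((hMd 6).trans ?_)
    rw [exp_le_exp]
    push_cast
    linarith
  -- `Z`
  set Z : ℝ := 4 * Mr ^ 4 * dr * (1 + T * exp Y) with hZ
  have hexpY : 1 ≤ exp Y := one_le_exp (by linarith)
  have hZ1 : 1 ≤ Z := by
    calc (1 : ℝ) = 1 * 1 * 1 * 1 := by ring
      _ ≤ 4 * Mr ^ 4 * dr * (1 + T * exp Y) := by
          have : 0 ≤ T * exp Y := by positivity
          gcongr <;> linarith
  have hZexp : Z ≤ exp (Mr / 4) := by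
    have h1 : Z ≤ Mr ^ 5 * dr * exp Y := by
      have h2 : 1 + T * exp Y ≤ 2 * T * exp Y := by
        have h3 : 1 ≤ T * exp Y := one_le_mul_of_one_le_of_one_le (by linarith) hexpY
        rw [mul_assoc]
        linarith
      calc Z ≤ 4 * Mr ^ 4 * dr * (2 * T * exp Y) := by
            rw [hZ]; gcongr
        _ = (8 * T) * (Mr ^ 4 * dr * exp Y) := by ring
        _ ≤ Mr * (Mr ^ 4 * dr * exp Y) := by
            apply mul_le_mul_of_nonneg_right _ (by positivity)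
            linarith
        _ = _ := by ring
    refine h1.trans ?_
    calc Mr ^ 5 * dr * exp Y ≤ exp ((5 : ℕ) * (Mr / 200) + Mr / 5) * exp Y :=
          mul_le_mul_of_nonneg_right (hMd 5) (exp_pos _).le
      _ = exp ((5 : ℕ) * (Mr / 200) + Mr / 5 + Y) := by rw [← exp_add]
      _ ≤ exp (Mr / 4) := by
          rw [exp_le_exp]
          push_cast
          linarith
  -- `mS`
  have hmQ : (m : ℝ) * Mr ^ 4 ≤ 5 * (Mr ^ 9 * dr) := by
    rw [hmr]
    have h1 : 4131 * T ≤ 5 * Mr := by linarith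
    calc 4131 * T * Mr ^ 4 * dr * Mr ^ 4 = (4131 * T) * (Mr ^ 8 * dr) := by ring
      _ ≤ (5 * Mr) * (Mr ^ 8 * dr) := mul_le_mul_of_nonneg_right h1 (by positivity)
      _ = _ := by ring
  have hm1 : (1 : ℝ) ≤ m := by
    rw [hmr]
    have : 4131 * T * Mr ^ 4 * dr = 4131 * (T * Mr ^ 4 * dr) := by ring
    rw [this]
    linarith
  have hmN : 1 ≤ m := by exact_mod_cast hm1
  have hQN : 1 ≤ Q := by
    have : (1 : ℝ) ≤ Q := by rw [hQr]; exact hM4
    exact_mod_cast this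
  -- `C`
  have hKn : (2 * ((K : ℝ) ^ (s + 2) * Q) : ℝ) ≤ exp (Mr ^ 2) := by
    have h1 : (K : ℝ) ^ (s + 2) ≤ exp ((s + 2 : ℕ) * (Mr / 4)) := by
      rw [exp_nat_mul]
      exact pow_le_pow_left₀ (Nat.cast_nonneg _) hKexp _
    have h2 : (Q : ℝ) ≤ exp ((4 : ℕ) * (Mr / 200)) := by
      rw [hQr, exp_nat_mul]
      exact pow_le_pow_left₀ hM0.le hMexp 4
    have h3 : (2 : ℝ) ≤ exp 1 := by
      have := add_one_le_exp (1 : ℝ)
      linarith
    calc (2 * ((K : ℝ) ^ (s + 2) * Q) : ℝ)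
        ≤ exp 1 * (exp ((s + 2 : ℕ) * (Mr / 4)) * exp ((4 : ℕ) * (Mr / 200))) := by gcongr
      _ = exp (1 + ((s + 2 : ℕ) * (Mr / 4) + (4 : ℕ) * (Mr / 200))) := by
          rw [← exp_add, ← exp_add]
      _ ≤ exp (Mr ^ 2) := by
          rw [exp_le_exp]
          push_cast
          rw [hs2]
          have h4 : (T + 1) * (Mr / 4) ≤ Mr / 500 * (Mr / 4) := by
            apply mul_le_mul_of_nonneg_right _ (by positivity)
            linarith
          have h5 := aux1 hM2000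
          linarith
  have hZn : Z ^ ((s + 2) * K) ≤ exp ((T + 1) ^ 2 * m * Mr) := by
    have h1 : Z ^ ((s + 2) * K) ≤ exp (((s + 2) * K : ℕ) * (Mr / 4)) := by
      rw [exp_nat_mul]
      exact pow_le_pow_left₀ (by linarith) hZexp _
    refine h1.trans (le_of_eq ?_)
    congr 1
    push_cast
    rw [hKr, hs2]
    ring
  set C0 : ℝ := (2 * ((K : ℝ) ^ (s + 2) * Q) : ℝ) * (2 * ((K : ℝ) ^ (s + 2) * Q) *
      (Z ^ ((s + 2) * K) * exp (Q * (17 * T * Mr ^ 4 * dr)))) * Z ^ ((s + 2) * K) with hC0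
  have hCle : C0 ≤ exp (m * Q) := by
    have h1 : C0 ≤ exp (Mr ^ 2) * (exp (Mr ^ 2) * (exp ((T + 1) ^ 2 * m * Mr) *
        exp (Q * (17 * T * Mr ^ 4 * dr)))) * exp ((T + 1) ^ 2 * m * Mr) := by
      rw [hC0]
      gcongr
    refine h1.trans ?_
    rw [← exp_add, ← exp_add, ← exp_add, ← exp_add, exp_le_exp, hQr]
    have h2 : 2 * Mr ^ 2 ≤ m * Mr ^ 4 / 4 := by
      have h3 : 8 * Mr ^ 2 ≤ Mr ^ 4 := by
        have : Mr ^ 4 = Mr ^ 2 * Mr ^ 2 := by ring
        rw [this]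
        exact mul_le_mul_of_nonneg_right (aux2 hM2000) (by positivity)
      have h4 : Mr ^ 4 ≤ m * Mr ^ 4 := le_mul_of_one_le_left (by positivity) hm1
      linarith
    have h5 : 2 * ((T + 1) ^ 2 * m * Mr) ≤ m * Mr ^ 4 / 4 := by
      have h6 : (T + 1) ^ 2 ≤ (Mr / 500) ^ 2 := pow_le_pow_left₀ (by linarith) (by linarith) 2
      have h7 : 8 * ((Mr / 500) ^ 2 * Mr) ≤ Mr ^ 4 := by
        have : Mr ^ 4 = Mr ^ 3 * Mr := by ring
        rw [this]
        have h8 : 8 * ((Mr / 500) ^ 2 * Mr) = (8 / 250000) * Mr ^ 3 := by ring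
        rw [h8, mul_comm (8 / 250000 : ℝ)]
        apply mul_le_mul_of_nonneg_left _ (by positivity)
        linarith
      calc 2 * ((T + 1) ^ 2 * m * Mr) = (m / 4) * (8 * ((T + 1) ^ 2 * Mr)) := by ring
        _ ≤ (m / 4) * (8 * ((Mr / 500) ^ 2 * Mr)) := by gcongr
        _ ≤ (m / 4) * Mr ^ 4 := by gcongr
        _ = _ := by ring
    have h9 : Mr ^ 4 * (17 * T * Mr ^ 4 * dr) ≤ m * Mr ^ 4 / 4 := by
      rw [hmr]
      have : 0 ≤ T * Mr ^ 8 * dr := by positivity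
      have e1 : Mr ^ 4 * (17 * T * Mr ^ 4 * dr) = 17 * (T * Mr ^ 8 * dr) := by ring
      have e2 : 4131 * T * Mr ^ 4 * dr * Mr ^ 4 / 4 = 4131 / 4 * (T * Mr ^ 8 * dr) := by ring
      rw [e1, e2]
      linarith
    have h10 : 0 ≤ m * Mr ^ 4 := by positivity
    linarith
  -- `del`
  set del : ℝ := T * (4 * Mr ^ 4 * dr) * (2 * exp (-w)) with hdel
  have hw0 : Mr ^ 12 * dr ≤ w := hw
  have hMbig : ∀ k : ℕ, k ≤ 11 → Mr ^ k * dr * Mr ≤ Mr ^ 12 * dr := by
    intro k hk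
    calc Mr ^ k * dr * Mr = Mr ^ (k + 1) * dr := by ring
      _ ≤ Mr ^ 12 * dr := by
          apply mul_le_mul_of_nonneg_right _ hd0.le
          exact pow_le_pow_right₀ hM1 (by omega)
  have hdelexp : 6 * Mr ^ 4 * del ≤ exp (Mr / 4 - w) := by
    have h1 : 6 * Mr ^ 4 * del = (48 * T) * (Mr ^ 8 * dr) * exp (-w) := by
      rw [hdel]; ring
    rw [h1, sub_eq_add_neg, exp_add]
    apply mul_le_mul_of_nonneg_right _ (exp_pos _).le
    calc (48 * T) * (Mr ^ 8 * dr) ≤ Mr * (Mr ^ 8 * dr) := by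
          apply mul_le_mul_of_nonneg_right _ (by positivity)
          linarith
      _ = Mr ^ 9 * dr := by ring
      _ ≤ exp ((9 : ℕ) * (Mr / 200) + Mr / 5) := hMd 9
      _ ≤ exp (Mr / 4) := by
          rw [exp_le_exp]
          push_cast
          linarith
  have hdel0 : 0 ≤ del := by rw [hdel]; positivity
  have hMw : Mr ≤ w := by
    have h1 := hMbig 0 (by norm_num)
    rw [pow_zero, one_mul] at h1
    have h2 : Mr ≤ dr * Mr := le_mul_of_one_le_left hM0.le (by linarith)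
    linarith
  refine D.core hD (2 * exp (-w)) hLam (exp Y) hF (s + 2) x y T0 K ((4 * (s + 2) - 1) * m) m Q
    (3 * Q) (4 * Q) (4 * Q * x) (4 * Q * y) Z (exp Y) (17 * T * Mr ^ 4 * dr) del hH hx1 hy1 ?_ ?_
    ?_ ?_ ?_ le_rfl le_rfl ?_ ?_ hZ1 hTh ?_ ?_ ?_ hmN hQN ?_ ?_ ?_ ?_ ?_ ?_
  · -- hinj
    rw [hB]
    push_cast
    have h1 : 2 * ((y : ℝ) * (s + 1) * (2 * exp (-w))) = 4 * (y * T) * exp (-w) := by
      rw [hTdef]; ring
    rw [h1]
    have h2 : 4 * ((y : ℝ) * T) ≤ exp (Mr / 4) := by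
      calc 4 * ((y : ℝ) * T) ≤ 4 * (dr * T) := by gcongr
        _ = (4 * T) * dr := by ring
        _ ≤ Mr * dr := by
            apply mul_le_mul_of_nonneg_right _ hd0.le
            linarith
        _ = Mr ^ 1 * dr := by ring
        _ ≤ exp ((1 : ℕ) * (Mr / 200) + Mr / 5) := hMd 1
        _ ≤ exp (Mr / 4) := by
            rw [exp_le_exp]
            push_cast
            linarith
    calc 4 * ((y : ℝ) * T) * exp (-w) ≤ exp (Mr / 4) * exp (-w) :=
          mul_le_mul_of_nonneg_right h2 (exp_pos _).le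
      _ = exp (Mr / 4 - w) := by rw [← exp_add, sub_eq_add_neg]
      _ < exp (-(2 * D.ht x y)) := by
          rw [exp_lt_exp]
          have h3 := hMbig 1 (by norm_num)
          rw [pow_one] at h3
          exact aux3 hM2000 hd4 hMT (h3.trans hw0) hhtx
  · -- hcard
    rw [hU, hB]
    have h1 : (T0 : ℝ) ^ (s + 2) < (x : ℝ) ^ (s + 1) * (y : ℝ) ^ (s + 1) := by
      calc (T0 : ℝ) ^ (s + 2) ≤ (Mr ^ 11 * dr) ^ (s + 2) :=
            pow_le_pow_left₀ (Nat.cast_nonneg _) hT0le _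
        _ < (dr / E / 2) ^ (s + 1) * (dr / W / 2) ^ (s + 1) := by
            have h2 : (dr / E / 2) ^ (s + 1) * (dr / W / 2) ^ (s + 1) =
                dr ^ s * dr ^ (s + 2) / (4 * E * W) ^ (s + 1) := by
              rw [← mul_pow]
              have h3 : dr / E / 2 * (dr / W / 2) = dr ^ 2 / (4 * E * W) := by
                field_simp
                norm_num
              rw [h3, div_pow]
              congr 1
              rw [← pow_mul, ← pow_add]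
              congr 1
              ring
            rw [h2, lt_div_iff₀ (by positivity), mul_pow, ← pow_mul]
            have h4 : Mr ^ (11 * (s + 2)) ≤ Mr ^ (33 * s) := pow_le_pow_right₀ hM1 (by omega)
            calc Mr ^ (11 * (s + 2)) * dr ^ (s + 2) * (4 * E * W) ^ (s + 1)
                ≤ Mr ^ (33 * s) * dr ^ (s + 2) * (4 * E * W) ^ (s + 1) := by gcongr
              _ = ((4 * E * W) ^ (s + 1) * Mr ^ (33 * s)) * dr ^ (s + 2) := by ring
              _ < dr ^ s * dr ^ (s + 2) := mul_lt_mul_of_pos_right hd (by positivity)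
        _ ≤ (x : ℝ) ^ (s + 1) * (y : ℝ) ^ (s + 1) := by gcongr
    exact_mod_cast h1
  · -- hyT
    have h1 : (2 * y : ℝ) ≤ T0 := by
      rw [hT0r, hmr]
      have h2 : (1 : ℝ) ≤ 12 * (s + 2) ^ 2 * Mr ^ 4 := by
        have h3 : (1 : ℝ) ≤ (s + 2) ^ 2 := one_le_pow₀ (by linarith)
        calc (1 : ℝ) = 1 * 1 * 1 := by ring
          _ ≤ _ := by gcongr; norm_num
      calc (2 * y : ℝ) ≤ 2 * dr := by linarith
        _ ≤ 4131 * (T * Mr ^ 4) * dr := by
            apply mul_le_mul_of_nonneg_right _ hd0.le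
            have h4 : 1 ≤ T * Mr ^ 4 := one_le_mul_of_one_le_of_one_le (by linarith) hM4
            linarith
        _ = 1 * (4131 * T * Mr ^ 4 * dr) := by ring
        _ ≤ (12 * (s + 2) ^ 2 * Mr ^ 4) * (4131 * T * Mr ^ 4 * dr) :=
            mul_le_mul_of_nonneg_right h2 (by positivity)
    exact_mod_cast h1
  · -- hT1
    have h1 : 0 < Q * ((s + 2) * m) := by positivity
    have h2 : 4 * (s + 2) - 1 + 1 = 4 * (s + 2) := by omega
    calc 3 * Q * ((s + 2) * ((4 * (s + 2) - 1) * m))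
        < 3 * Q * ((s + 2) * ((4 * (s + 2) - 1) * m)) + 3 * (Q * ((s + 2) * m)) := by omega
      _ = 3 * Q * ((s + 2) * ((4 * (s + 2) - 1 + 1) * m)) := by ring
      _ = T0 := by rw [h2, hT0]; ring
  · -- hN1
    have h1 : (s + 2 + 1 : ℝ) ≤ Q := by
      rw [hQr]
      have h2 : Mr ≤ Mr ^ 4 := le_self_pow₀ hM1 (by norm_num)
      linarith
    have h2 : s + 2 + 1 ≤ Q := by exact_mod_cast h1
    omega
  · -- hOm
    have : 17 * T * Mr ^ 4 * dr = 16 * T * Mr ^ 4 * dr + T * Mr ^ 4 * dr := by ring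
    rw [this]
    linarith
  · -- hZ
    rw [hB]
    push_cast
    rw [hQr, hZ]
    calc 4 * Mr ^ 4 * (x : ℝ) + (s + 1) * (4 * Mr ^ 4 * y) * exp Y
        ≤ 4 * Mr ^ 4 * dr + (s + 1) * (4 * Mr ^ 4 * dr) * exp Y := by gcongr
      _ = _ := by rw [hTdef]; ring
  · -- hdel0
    rw [hB, hdel]
    push_cast
    rw [hQr]
    gcongr
  · -- hK'
    have h1 : 1 ≤ 4 * (s + 2) - 1 := by omega
    exact Nat.one_le_iff_ne_zero.2 (Nat.mul_ne_zero (by omega) (by omega))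
  · -- hK
    rw [hK]
    have h2 : 4 * (s + 2) - 1 + 1 = 4 * (s + 2) := by omega
    calc (4 * (s + 2) - 1) * m + m = (4 * (s + 2) - 1 + 1) * m := by ring
      _ = _ := by rw [h2]
      _ ≤ _ := le_rfl
  · -- hSS
    omega
  · -- hmS
    push_cast
    rw [hQr, hmr]
    have : 81 * (3 * Mr ^ 4 * (17 * T * Mr ^ 4 * dr)) = 4131 * T * Mr ^ 4 * dr * Mr ^ 4 := by ring
    rw [this]
  · -- hC
    exact hCle
  · -- hdel
    push_cast
    rw [hQr]
    have h1 : 3 * Mr ^ 4 * del ≤ 6 * Mr ^ 4 * del := by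
      have : 0 ≤ Mr ^ 4 * del := by positivity
      linarith
    refine h1.trans (hdelexp.trans ?_)
    rw [exp_le_one_iff]
    linarith
  · -- hL
    push_cast
    rw [hQr]
    have h1 : (4 * (3 * Mr ^ 4) * ((m : ℝ) + 1)) ^ (m * Q) ≤ exp ((m * Q : ℕ) * (Mr / 4)) := by
      rw [exp_nat_mul]
      apply pow_le_pow_left₀ (by positivity)
      calc 4 * (3 * Mr ^ 4) * ((m : ℝ) + 1) ≤ 4 * (3 * Mr ^ 4) * ((m : ℝ) + m) := by gcongr
        _ = 24 * Mr ^ 4 * m := by ring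
        _ = (99144 * T) * (Mr ^ 8 * dr) := by rw [hmr]; ring
        _ ≤ Mr ^ 2 * (Mr ^ 8 * dr) := by
            apply mul_le_mul_of_nonneg_right _ (by positivity)
            calc 99144 * T ≤ 100 * Mr := by linarith
              _ ≤ Mr * Mr := mul_le_mul_of_nonneg_right (by linarith) hM0.le
              _ = Mr ^ 2 := by ring
        _ = Mr ^ 10 * dr := by ring
        _ ≤ exp ((10 : ℕ) * (Mr / 200) + Mr / 5) := hMd 10
        _ ≤ exp (Mr / 4) := by
            rw [exp_le_exp]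
            push_cast
            linarith
    have h2 : (((s : ℝ) + 2) * exp Y + 1) ^ m ≤ exp (m * (Mr / 4)) := by
      rw [exp_nat_mul]
      apply pow_le_pow_left₀ (by positivity)
      rw [hs2]
      calc (T + 1) * exp Y + 1 ≤ (T + 1) * exp Y + exp Y := by linarith
        _ = (T + 2) * exp Y := by ring
        _ ≤ Mr * exp Y := by
            apply mul_le_mul_of_nonneg_right _ (exp_pos _).le
            linarith
        _ ≤ exp (Mr / 200) * exp Y := mul_le_mul_of_nonneg_right hMexp (exp_pos _).le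
        _ = exp (Mr / 200 + Y) := by rw [← exp_add]
        _ ≤ exp (Mr / 4) := by
            rw [exp_le_exp]
            linarith
    have h4 : exp (2 * (3 * Mr ^ 4) * (17 * T * Mr ^ 4 * dr)) ≤ exp (m * Mr ^ 4 / 40) := by
      rw [exp_le_exp, hmr]
      have : 0 ≤ T * Mr ^ 8 * dr := by positivity
      have e1 : 2 * (3 * Mr ^ 4) * (17 * T * Mr ^ 4 * dr) = 102 * (T * Mr ^ 8 * dr) := by ring
      have e2 : 4131 * T * Mr ^ 4 * dr * Mr ^ 4 / 40 = 4131 / 40 * (T * Mr ^ 8 * dr) := by ring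
      rw [e1, e2]
      linarith
    have h5 : 2 * (3 * Mr ^ 4) * del ≤ exp (Mr / 4 - w) := by
      have : 2 * (3 * Mr ^ 4) * del = 6 * Mr ^ 4 * del := by ring
      rw [this]
      exact hdelexp
    have hC00 : 0 ≤ C0 := by rw [hC0]; positivity
    have h6 : (4 * (3 * Mr ^ 4) * ((m : ℝ) + 1)) ^ (m * Q) * (((s : ℝ) + 2) * exp Y + 1) ^ m *
        C0 * exp (2 * (3 * Mr ^ 4) * (17 * T * Mr ^ 4 * dr)) * (2 * (3 * Mr ^ 4) * del) ≤
        exp ((m * Q : ℕ) * (Mr / 4)) * exp (m * (Mr / 4)) * exp (m * Q) *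
        exp (m * Mr ^ 4 / 40) * exp (Mr / 4 - w) := by
      gcongr
    rw [hC0, hQr] at h6
    refine h6.trans ?_
    rw [← exp_add, ← exp_add, ← exp_add, ← exp_add]
    push_cast
    rw [hQr]
    have h7 : (m : ℝ) ≤ m * Mr ^ 4 := le_mul_of_one_le_right (by linarith) hM4
    have h8 : (m : ℝ) * Mr ^ 4 * (Mr / 4) + m * (Mr / 4) + m * Mr ^ 4 + m * Mr ^ 4 / 40 +
        (Mr / 4 - w) ≤ -2 := by
      have h15 := hMbig 0 (by norm_num)
      rw [pow_zero, one_mul] at h15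
      exact aux5 hM2000 hd4 (by positivity) h7 hmQ hw0 h15
    have h9 : exp ((m : ℝ) * Mr ^ 4 * (Mr / 4) + m * (Mr / 4) + m * Mr ^ 4 + m * Mr ^ 4 / 40 +
        (Mr / 4 - w)) ≤ exp (-2) := exp_le_exp.2 h8
    refine h9.trans ?_
    rw [exp_neg, ← one_div]
    exact one_div_le_one_div_of_le (by norm_num) four_le_exp_two
  · -- hrows
    exact rows_ineq (s + 2) Q m (by omega)

end Pool.Agent.MP_f02ea4.QR
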