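import Mathlib
import Pool.Agent.Lib.MP_f02ea4_nt.Mg.G007
import Pool.Agent.Lib.MP_f02ea4_nt.Mg.G008

/-! Good components of an odd perfect number: the core argument, from the bound for several
components. -/

set_option autoImplicit false

namespace Pool.Agent.MP_f02ea4.TB

open Finset Real
open Pool.Agent.Lib.MP_f02ea4_nt.LP
open Pool.Agent.Lib.MP_f02ea4_nt.IP
open Pool.Agent.Lib.MP_f02ea4_nt.BK

/-- the sum of weights, with few of them in every dyadic interval -/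
lemma dyadic_sum {w : ℕ → ℝ} {t : ℕ} (S : Finset ℕ) : ∀ X : ℝ, 0 ≤ X →
    (∀ r ∈ S, 0 < w r ∧ w r ≤ X) →
    (∀ y, y ≤ X → (S.filter (fun r => y / 2 < w r ∧ w r ≤ y)).card ≤ t) →
    ∑ r ∈ S, w r ≤ 2 * t * X := by
  induction S using Finset.strongInduction with
  | H S ih =>
    intro X hX hw hc
    rcases S.eq_empty_or_nonempty with rfl | hne
    · rw [Finset.sum_empty]
      positivity
    obtain ⟨m, hm, hmax⟩ := S.exists_max_image w hne
    obtain ⟨y, hy⟩ : ∃ y, y = w m := ⟨_, rfl⟩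
    rw [← hy] at hmax
    have hy0 : 0 < y := by rw [hy]; exact (hw m hm).1
    have hyX : y ≤ X := by rw [hy]; exact (hw m hm).2
    have hS2 : S.filter (fun r => ¬ y / 2 < w r) ⊂ S := by
      rw [Finset.filter_ssubset]
      refine ⟨m, hm, ?_⟩
      rw [not_not, ← hy]
      linarith
    have h2 := ih _ hS2 (y / 2) (by positivity) (fun r hr => by
      rw [Finset.mem_filter] at hr
      exact ⟨(hw r hr.1).1, not_lt.1 hr.2⟩) (fun z hz => by
      refine le_trans (Finset.card_le_card ?_) (hc z (by linarith))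
      exact Finset.filter_subset_filter _ (Finset.filter_subset _ _))
    have h1 : ∑ r ∈ S.filter (fun r => y / 2 < w r), w r ≤ t * y := by
      have h3 : ∑ r ∈ S.filter (fun r => y / 2 < w r), w r ≤
          ∑ _r ∈ S.filter (fun r => y / 2 < w r), y :=
        Finset.sum_le_sum fun r hr => hmax r (Finset.mem_filter.1 hr).1
      rw [Finset.sum_const, nsmul_eq_mul] at h3
      refine h3.trans ?_
      apply mul_le_mul_of_nonneg_right _ hy0.le
      have h4 := hc y hyX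
      have h5 : S.filter (fun r => y / 2 < w r ∧ w r ≤ y) = S.filter (fun r => y / 2 < w r) := by
        apply Finset.filter_congr
        intro r hr
        exact ⟨fun h => h.1, fun h => ⟨h, hmax r hr⟩⟩
      rw [h5] at h4
      exact_mod_cast h4
    rw [← Finset.sum_filter_add_sum_filter_not S (fun r => y / 2 < w r)]
    have h3 : 2 * (t : ℝ) * (y / 2) = t * y := by ring
    rw [h3] at h2
    have h4 : (t : ℝ) * y ≤ t * X := mul_le_mul_of_nonneg_left hyX (Nat.cast_nonneg _)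
    linarith

/-- the case of large `D` -/
theorem core_large {C : ℕ} (hTB : TupleBound C) {K : ℝ} (hK : 1 ≤ K) {p : ℕ} {S : Finset ℕ} {a s κ : ℕ → ℕ} {D I : ℝ}
    (hp : p.Prime) (hp2 : p ≠ 2) (F : Fam1 p S a s κ) (hD : 64 ≤ D) (hI1 : 1 ≤ I)
    (hw : ∀ r ∈ S, (κ r : ℝ) * log p ≤ K * I) (hs : ∑ r ∈ S, log (s r : ℝ) ≤ I)
    (hsum : D ≤ K * ∑ r ∈ S, (κ r : ℝ) * log p)
    {Bf : ℝ} (hBf : exp 3 * (((⌈log D⌉₊ : ℝ) + 2) * (3 * log D)) ^ C ≤ Bf)
    (hM : 64 * Bf * (44 * K) ^ 2 * K ^ 3 * log D ^ 2 * I ^ 3 ≤ D ^ 2)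
    (hM1 : 32 * K ^ 2 * log D * I ≤ D)
    (hM2 : 44 * K * (K * I) ^ 2 * log D ≤ D ^ 2) : False := by
  classical
  have hK0 : 0 < K := by linarith
  have hD0 : 0 < D := by linarith
  have hD1 : 1 ≤ D := by linarith
  have hI0 : 0 < I := by linarith
  set ℓ : ℝ := log D with hℓ
  have hℓ2 : 4 ≤ ℓ := by
    have h1 : log (64 : ℝ) ≤ log D := log_le_log (by norm_num) hD
    have h2 : log (64 : ℝ) = 6 * log 2 := by
      rw [show (64 : ℝ) = 2 ^ 6 by norm_num, log_pow]
      push_cast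
      ring
    have h3 : (0.6931471803 : ℝ) < log 2 := log_two_gt_d9
    rw [hℓ]
    linarith
  have hℓ0 : 0 < ℓ := by linarith
  have hexpℓ : exp ℓ = D := exp_log hD0
  have hℓD : ℓ ≤ D - 1 := log_le_sub_one_of_pos hD0
  have hℓD4 : 4 * ℓ ≤ D := by
    have h1 : ℓ = log (D / 16) + log 16 := by
      rw [hℓ, ← log_mul (by positivity) (by norm_num)]
      congr 1
      ring
    have h2 : log (D / 16) ≤ D / 16 - 1 := log_le_sub_one_of_pos (by positivity)
    have h3 : log (16 : ℝ) = 4 * log 2 := by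
      rw [show (16 : ℝ) = 2 ^ 4 by norm_num, log_pow]
      push_cast
      ring
    have h4 : log 2 < (0.6931471808 : ℝ) := log_two_lt_d9
    linarith
  set t : ℕ := ⌈ℓ⌉₊ + 2 with ht
  have htr : (t : ℝ) = (⌈ℓ⌉₊ : ℝ) + 2 := by rw [ht]; push_cast; rfl
  have ht1 : ℓ + 1 ≤ (t : ℝ) - 1 := by
    have h1 : ℓ ≤ (⌈ℓ⌉₊ : ℝ) := Nat.le_ceil _
    rw [htr]
    linarith
  have ht2 : (t : ℝ) ≤ 2 * ℓ := by
    have h1 : (⌈ℓ⌉₊ : ℝ) < ℓ + 1 := Nat.ceil_lt_add_one hℓ0.le
    rw [htr]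
    linarith
  rw [← htr] at hBf
  have hBf1 : 1 ≤ Bf := by
    refine le_trans ?_ hBf
    have h1 : 1 ≤ exp 3 := one_le_exp (by norm_num)
    have h2 : 1 ≤ ((t : ℝ) * (3 * ℓ)) ^ C := by
      apply one_le_pow₀
      exact one_le_mul_of_one_le_of_one_le (by linarith) (by linarith)
    exact one_le_mul_of_one_le_of_one_le h1 h2
  have hBf0 : 0 < Bf := by linarith
  set A : ℝ := 44 * K with hA
  have hA1 : 1 ≤ A := by rw [hA]; linarith
  have hA0 : 0 < A := by linarith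
  have hP1 : 1 ≤ log (p : ℝ) := by
    have h1 : (3 : ℝ) ≤ p := by
      have h2 : 3 ≤ p := by have := hp.two_le; omega
      exact_mod_cast h2
    rw [le_log_iff_exp_le (by linarith)]
    have h4 : exp 1 < 2.7182818286 := exp_one_lt_d9
    linarith
  have hKI : 33 / 20 * (K * I) ≤ D := by
    have h1 : 33 / 20 * (K * I) ≤ 32 * K ^ 2 * ℓ * I := by
      have h2 : K * I ≤ K ^ 2 * ℓ * I := by
        apply mul_le_mul_of_nonneg_right _ hI0.le
        calc K = K * 1 := (mul_one K).symm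
          _ ≤ K ^ 2 * ℓ := mul_le_mul (le_self_pow₀ hK (by norm_num)) (by linarith)
              (by norm_num) (by positivity)
      have h3 : 0 ≤ K * I := by positivity
      linarith
    linarith
  have hKI0 : 0 < K * I := by positivity
  set x : ℝ → ℝ := fun w => A * w ^ 2 * ℓ / D with hx
  have hxmono : ∀ w w' : ℝ, 0 ≤ w → w ≤ w' → x w ≤ x w' := by
    intro w w' h0 h1
    simp only [hx]
    gcongr
  have hxD : ∀ w : ℝ, 0 ≤ w → w ≤ K * I → x w ≤ D := by
    intro w h0 h1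
    refine (hxmono w _ h0 h1).trans ?_
    simp only [hx]
    rw [div_le_iff₀ hD0, ← pow_two]
    exact hM2
  have hxpos : ∀ w : ℝ, 0 < w → 0 < x w := by
    intro w h0
    simp only [hx]
    positivity
  -- the three classes
  have hκ1 : ∀ r ∈ S, (1 : ℝ) ≤ κ r := fun r hr => by exact_mod_cast kappa_one F hr
  have hw0 : ∀ r ∈ S, 0 < (κ r : ℝ) * log p := fun r hr => by
    have := hκ1 r hr
    positivity
  set SA := S.filter (fun r => x (κ r * log p) < log r) with hSA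
  set S' := S.filter (fun r => ¬ x (κ r * log p) < log r) with hS'
  set SB := S'.filter (fun r => log (s r : ℝ) <
    κ r * log p / (16 * (Bf * x (κ r * log p)))) with hSB
  set SC := S'.filter (fun r => ¬ log (s r : ℝ) <
    κ r * log p / (16 * (Bf * x (κ r * log p)))) with hSC
  have hSAS : SA ⊆ S := Finset.filter_subset _ _
  have hS'S : S' ⊆ S := Finset.filter_subset _ _
  have hSBS : SB ⊆ S := (Finset.filter_subset _ _).trans hS'S
  have hSCS : SC ⊆ S := (Finset.filter_subset _ _).trans hS'S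
  have hsplit : ∑ r ∈ S, (κ r : ℝ) * log p = ∑ r ∈ SA, (κ r : ℝ) * log p +
      (∑ r ∈ SB, (κ r : ℝ) * log p + ∑ r ∈ SC, (κ r : ℝ) * log p) := by
    rw [hSB, hSC, Finset.sum_filter_add_sum_filter_not, hSA, hS',
      Finset.sum_filter_add_sum_filter_not]
  -- (A)
  have hAsum : ∑ r ∈ SA, (κ r : ℝ) * log p ≤ D / (4 * K) := by
    have h1 := sum_large hp hp2 (F.mono hSAS) (A := A) (D := D) hA0 (by linarith)
      (fun r hr => by
        have h2 := hw r (hSAS hr)
        linarith)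
      (fun r hr => (Finset.mem_filter.1 hr).2)
    refine h1.trans (le_of_eq ?_)
    rw [hA]
    field_simp
    norm_num
  -- facts for `S'`
  have hS'x : ∀ r ∈ S', log (r : ℝ) ≤ x (κ r * log p) ∧ 1 ≤ x (κ r * log p) := by
    intro r hr
    have h1 := (Finset.mem_filter.1 hr).2
    rw [not_lt] at h1
    exact ⟨h1, (one_le_log F (hS'S hr)).trans h1⟩
  -- (B)
  have hclass : ∀ y : ℝ, y ≤ K * I → (SB.filter (fun r => y / 2 < (κ r : ℝ) * log p ∧
      (κ r : ℝ) * log p ≤ y)).card ≤ t := by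
    intro y hy
    by_contra hcon
    rw [not_le] at hcon
    obtain ⟨T, hTS, hTc⟩ := Finset.exists_subset_card_eq hcon.le
    have hTne : T.Nonempty := by
      rw [← Finset.card_pos, hTc]
      omega
    have hT : ∀ r ∈ T, r ∈ S' ∧ log (s r : ℝ) <
        κ r * log p / (16 * (Bf * x (κ r * log p))) ∧ y / 2 < (κ r : ℝ) * log p ∧
        (κ r : ℝ) * log p ≤ y := by
      intro r hr
      obtain ⟨h1, h2⟩ := Finset.mem_filter.1 (hTS hr)
      obtain ⟨h3, h4⟩ := Finset.mem_filter.1 h1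
      exact ⟨h3, h4, h2.1, h2.2⟩
    have hy0 : 0 < y := by
      obtain ⟨r, hr⟩ := hTne
      exact (hw0 r (hS'S (hT r hr).1)).trans_le (hT r hr).2.2.2
    have hx1 : 1 ≤ x y := by
      obtain ⟨r, hr⟩ := hTne
      obtain ⟨h1, -, -, h4⟩ := hT r hr
      exact (hS'x r h1).2.trans (hxmono _ _ (hw0 r (hS'S h1)).le h4)
    have hxy0 : 0 < x y := hxpos y hy0
    have hxyD : x y ≤ D := hxD y hy0.le hy
    have hyD : y ≤ D := by linarith
    have hcomp : Comp p T (fun r => a r + 1) (fun r => (r - 1) * s r) κ := by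
      refine ⟨hp, fun r hr => F.prime r (hS'S (hT r hr).1), fun r hr => ?_, fun r hr => ?_,
        fun r hr => ?_⟩
      · have h3 := three_le F (hS'S (hT r hr).1)
        exact Nat.mul_pos (by omega) (F.c1 r (hS'S (hT r hr).1))
      · exact kappa_one F (hS'S (hT r hr).1)
      · have h3 := F.sig r (hS'S (hT r hr).1)
        show r ^ (a r + 1) = (r - 1) * s r * p ^ κ r + 1
        rw [← h3]
        ring
    set H : ℝ := x y + y / (8 * (Bf * x y)) with hH
    have hBx1 : 1 ≤ Bf * x y := one_le_mul_of_one_le_of_one_le hBf1 hx1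
    have hyB : y / (8 * (Bf * x y)) ≤ y / 8 := by
      apply div_le_div_of_nonneg_left hy0.le (by norm_num)
      linarith
    have hyB0 : 0 ≤ y / (8 * (Bf * x y)) := by positivity
    have hH1 : 1 ≤ H := by rw [hH]; linarith
    have hH2D : H ≤ 2 * D := by
      rw [hH]
      linarith
    have hEr : ∀ r ∈ T, log (r : ℝ) ≤ x y := by
      intro r hr
      obtain ⟨h1, -, -, h4⟩ := hT r hr
      exact (hS'x r h1).1.trans (hxmono _ _ (hw0 r (hS'S h1)).le h4)
    have hHr : ∀ r ∈ T, log (((fun r => (r - 1) * s r) r : ℕ) : ℝ) ≤ H := by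
      intro r hr
      obtain ⟨h1, h2, h3, h4⟩ := hT r hr
      have hr3 := three_le F (hS'S h1)
      have hs1 := F.c1 r (hS'S h1)
      have hwr := hw0 r (hS'S h1)
      set w : ℝ := (κ r : ℝ) * log p with hwdef
      have hr0 : (0 : ℝ) < r := by exact_mod_cast (by omega : 0 < r)
      have ht0 : (0 : ℝ) < s r := by exact_mod_cast hs1
      have h5 : (((r - 1) * s r : ℕ) : ℝ) ≤ r * s r := by
        have h6 : (r - 1) * s r ≤ r * s r := Nat.mul_le_mul_right _ (by omega)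
        exact_mod_cast h6
      have h7 : (0 : ℝ) < (((r - 1) * s r : ℕ) : ℝ) := by
        have h6 : 0 < (r - 1) * s r := Nat.mul_pos (by omega) hs1
        exact_mod_cast h6
      have h8 := log_le_log h7 h5
      rw [log_mul hr0.ne' ht0.ne'] at h8
      have h9 := hEr r hr
      have h10 : w / (16 * (Bf * x w)) ≤ y / (8 * (Bf * x y)) := by
        have e1 : w / (16 * (Bf * x w)) = D / (16 * Bf * A * ℓ) * (1 / w) := by
          simp only [hx]
          field_simp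
        have e2 : y / (8 * (Bf * x y)) = D / (16 * Bf * A * ℓ) * (1 / (y / 2)) := by
          simp only [hx]
          field_simp
          norm_num
        rw [e1, e2]
        apply mul_le_mul_of_nonneg_left _ (by positivity)
        exact one_div_le_one_div_of_le (by positivity) h3.le
      show log (((r - 1) * s r : ℕ) : ℝ) ≤ H
      rw [hH]
      linarith
    have hD3 : exp (3 * ℓ) = D ^ 3 := by
      rw [show 3 * ℓ = ((3 : ℕ) : ℝ) * ℓ by norm_num, exp_nat_mul, hexpℓ]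
    have key := hTB p T _ _ κ (x y) H (3 * ℓ) (y / 2) hcomp (by rw [hTc]; omega)
      hx1 hEr hH1 hHr (fun r hr => (hT r hr).2.2.1.le) (by linarith) (by
        have h1 := log_le_log hxy0 hxyD
        linarith) (by
        have h1 : log H ≤ log (D ^ 2) := by
          apply log_le_log (by linarith)
          refine hH2D.trans ?_
          rw [pow_two]
          exact mul_le_mul_of_nonneg_right (by linarith) hD0.le
        rw [log_pow] at h1
        push_cast at h1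
        linarith) (by
        rw [hD3, hTc]
        obtain ⟨r, hr⟩ := hTne
        obtain ⟨h1, -, -, h4⟩ := hT r hr
        have h5 : log (p : ℝ) ≤ (κ r : ℝ) * log p :=
          le_mul_of_one_le_left (by linarith) (hκ1 r (hS'S h1))
        have h6 : (t : ℝ) * x y ≤ D * D := by
          apply mul_le_mul _ hxyD hxy0.le hD0.le
          linarith
        have h7 : D * D + D ≤ D ^ 3 := by
          calc D * D + D = D * (D + 1) := by ring
            _ ≤ D * (D * D) := by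
                apply mul_le_mul_of_nonneg_left _ hD0.le
                calc D + 1 ≤ 2 * D := by linarith
                  _ ≤ D * D := mul_le_mul_of_nonneg_right (by linarith) hD0.le
            _ = D ^ 3 := by ring
        linarith) (by
        intro r hr
        obtain ⟨h1, -, -, h4⟩ := hT r hr
        rw [hD3]
        have h5 : 2 * (1 + H + (κ r : ℝ) * log p) ≤ 8 * D := by linarith
        have h7 : 8 * D ≤ D ^ 3 := by
          calc 8 * D ≤ (D * D) * D := by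
                apply mul_le_mul_of_nonneg_right _ hD0.le
                calc (8 : ℝ) ≤ 8 * 8 := by norm_num
                  _ ≤ D * D := mul_le_mul (by linarith) (by linarith) (by norm_num) hD0.le
            _ = D ^ 3 := by ring
        linarith)
    rw [hTc] at key
    have hEH0 : 0 < x y * H := by positivity
    have hEH : x y * H ≤ D ^ 3 := by
      calc x y * H ≤ D * (2 * D) := mul_le_mul hxyD hH2D (by linarith) hD0.le
        _ = 2 * D ^ 2 := by ring
        _ ≤ D * D ^ 2 := mul_le_mul_of_nonneg_right (by linarith) (by positivity)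
        _ = D ^ 3 := by ring
    have hroot : (x y * H) ^ (1 / ((t : ℝ) - 1)) ≤ exp 3 := by
      have hEH1 : 1 ≤ x y * H := one_le_mul_of_one_le_of_one_le hx1 hH1
      have h1 : 1 / ((t : ℝ) - 1) ≤ 1 / ℓ :=
        one_div_le_one_div_of_le hℓ0 (by linarith)
      calc (x y * H) ^ (1 / ((t : ℝ) - 1)) ≤ (x y * H) ^ (1 / ℓ) :=
            rpow_le_rpow_of_exponent_le hEH1 h1
        _ ≤ (D ^ 3) ^ (1 / ℓ) := rpow_le_rpow hEH0.le hEH (by positivity)
        _ = exp 3 := by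
            rw [← hD3, ← exp_mul]
            congr 1
            field_simp
    have key2 : y / 2 ≤ Bf * x y * H := by
      calc y / 2 ≤ ((t : ℝ) * (3 * ℓ)) ^ C * (x y * H) ^ ((1 : ℝ) + 1 / ((t : ℝ) - 1)) := key
        _ = ((t : ℝ) * (3 * ℓ)) ^ C * ((x y * H) * (x y * H) ^ (1 / ((t : ℝ) - 1))) := by
            rw [rpow_add hEH0, rpow_one]
        _ ≤ ((t : ℝ) * (3 * ℓ)) ^ C * ((x y * H) * exp 3) := by gcongr
        _ = (exp 3 * ((t : ℝ) * (3 * ℓ)) ^ C) * (x y * H) := by ring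
        _ ≤ Bf * (x y * H) := mul_le_mul_of_nonneg_right hBf hEH0.le
        _ = Bf * x y * H := by ring
    have h8 : Bf * x y * H = Bf * x y ^ 2 + y / 8 := by
      rw [hH]
      field_simp
    rw [h8] at key2
    have h9 : Bf * x y ^ 2 ≤ y / 64 := by
      have e1 : Bf * x y ^ 2 = (Bf * A ^ 2 * ℓ ^ 2 * y ^ 3) * y / D ^ 2 := by
        simp only [hx]
        field_simp
      rw [e1, div_le_iff₀ (by positivity)]
      have h10 : y ^ 3 ≤ (K * I) ^ 3 := pow_le_pow_left₀ hy0.le hy 3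
      have h11 : Bf * A ^ 2 * ℓ ^ 2 * y ^ 3 ≤ D ^ 2 / 64 := by
        calc Bf * A ^ 2 * ℓ ^ 2 * y ^ 3 ≤ Bf * A ^ 2 * ℓ ^ 2 * (K * I) ^ 3 := by gcongr
          _ = (64 * Bf * A ^ 2 * K ^ 3 * ℓ ^ 2 * I ^ 3) / 64 := by ring
          _ ≤ D ^ 2 / 64 := by
              apply div_le_div_of_nonneg_right hM (by norm_num)
      calc (Bf * A ^ 2 * ℓ ^ 2 * y ^ 3) * y ≤ (D ^ 2 / 64) * y :=
            mul_le_mul_of_nonneg_right h11 hy0.le
        _ = y / 64 * D ^ 2 := by ring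
    linarith
  have hBsum : ∑ r ∈ SB, (κ r : ℝ) * log p ≤ D / (4 * K) := by
    have h1 := dyadic_sum (w := fun r => (κ r : ℝ) * log p) (t := t) SB (K * I) hKI0.le
      (fun r hr => ⟨hw0 r (hSBS hr), hw r (hSBS hr)⟩) hclass
    refine h1.trans ?_
    rw [le_div_iff₀ (by linarith)]
    calc 2 * (t : ℝ) * (K * I) * (4 * K) ≤ 2 * (2 * ℓ) * (K * I) * (4 * K) := by gcongr
      _ = (1 / 2) * (32 * K ^ 2 * ℓ * I) := by ring
      _ ≤ D := by
          have : 0 ≤ 32 * K ^ 2 * ℓ * I := by positivity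
          linarith
  -- (C)
  have hCsum : ∑ r ∈ SC, (κ r : ℝ) * log p ≤ D / (4 * K) := by
    have h1 : ∀ r ∈ SC, (κ r : ℝ) * log p ≤ 16 * (Bf * x (K * I)) * log (s r : ℝ) := by
      intro r hr
      obtain ⟨hrS', hrc⟩ := Finset.mem_filter.1 hr
      rw [not_lt] at hrc
      have hxr := (hS'x r hrS').2
      have hBx : 1 ≤ Bf * x (κ r * log p) := one_le_mul_of_one_le_of_one_le hBf1 hxr
      rw [div_le_iff₀ (by linarith)] at hrc
      have h2 := hxmono _ _ (hw0 r (hS'S hrS')).le (hw r (hS'S hrS'))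
      have h3 := log_s_nonneg F (hS'S hrS')
      calc (κ r : ℝ) * log p ≤ log (s r : ℝ) * (16 * (Bf * x (κ r * log p))) := hrc
        _ ≤ log (s r : ℝ) * (16 * (Bf * x (K * I))) := by gcongr
        _ = _ := by ring
    have h2 : ∑ r ∈ SC, (κ r : ℝ) * log p ≤ 16 * (Bf * x (K * I)) * I := by
      refine (Finset.sum_le_sum h1).trans ?_
      rw [← Finset.mul_sum]
      have h3 : ∑ r ∈ SC, log (s r : ℝ) ≤ ∑ r ∈ S, log (s r : ℝ) :=
        Finset.sum_le_sum_of_subset_of_nonneg hSCS (fun r hr _ => log_s_nonneg F hr)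
      apply mul_le_mul_of_nonneg_left (h3.trans hs)
      have h4 := hxpos (K * I) hKI0
      positivity
    refine h2.trans ?_
    have h5 : 16 * (Bf * x (K * I)) * I = (16 * Bf * A * K ^ 2 * ℓ * I ^ 3) / D := by
      simp only [hx]
      field_simp
    rw [h5, div_le_div_iff₀ hD0 (by positivity)]
    calc (16 * Bf * A * K ^ 2 * ℓ * I ^ 3) * (4 * K) = 64 * Bf * A * K ^ 3 * ℓ * I ^ 3 := by ring
      _ ≤ 64 * Bf * A ^ 2 * K ^ 3 * ℓ ^ 2 * I ^ 3 := by
          have e1 : A ≤ A ^ 2 := le_self_pow₀ hA1 (by norm_num)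
          have e2 : ℓ ≤ ℓ ^ 2 := le_self_pow₀ (by linarith) (by norm_num)
          gcongr
      _ ≤ D ^ 2 := hM
      _ = D * D := by ring
  have hfin : ∑ r ∈ S, (κ r : ℝ) * log p ≤ 3 * (D / (4 * K)) := by
    rw [hsplit]
    linarith
  have h9 : D ≤ K * (3 * (D / (4 * K))) := hsum.trans (mul_le_mul_of_nonneg_left hfin hK0.le)
  have h10 : K * (3 * (D / (4 * K))) = 3 / 4 * D := by field_simp
  rw [h10] at h9
  linarith

/-- the core statement -/
theorem core_of_tuple {C : ℕ} (hTB : TupleBound C) (K : ℝ) (hK : 1 ≤ K) : ∃ K' : ℝ, 1 ≤ K' ∧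
    ∀ (p : ℕ) (S : Finset ℕ) (a s κ : ℕ → ℕ) (D I : ℝ), p.Prime → p ≠ 2 → Fam1 p S a s κ →
      1 ≤ D → 1 ≤ I → (∀ r ∈ S, (κ r : ℝ) * log p ≤ K * I) → ∑ r ∈ S, log (s r : ℝ) ≤ I →
      D ≤ K * ∑ r ∈ S, (κ r : ℝ) * log p →
      D ^ ((2 : ℝ) / 3) ≤ K' * (1 + log D) ^ (2 * C + 2) * I := by
  have hK0 : 0 < K := by linarith
  set B0 : ℝ := exp 3 * 6 ^ C with hB0
  have hB01 : 1 ≤ B0 := by
    have h1 : 1 ≤ exp 3 := one_le_exp (by norm_num)
    have h2 : (1 : ℝ) ≤ 6 ^ C := one_le_pow₀ (by norm_num)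
    exact one_le_mul_of_one_le_of_one_le h1 h2
  set K' : ℝ := 64 * B0 * (44 * K) ^ 2 * K ^ 3 with hK'
  have hK1 : ∀ j : ℕ, 1 ≤ K ^ j := fun j => one_le_pow₀ hK
  have hA1 : 1 ≤ (44 * K) ^ 2 := one_le_pow₀ (by linarith)
  have hK'64 : 64 ≤ K' := by
    calc (64 : ℝ) = 64 * 1 * 1 * 1 := by ring
      _ ≤ K' := by
          have := hK1 3
          rw [hK']
          gcongr
  have hK'K : 1936 * K ^ 3 ≤ K' := by
    calc 1936 * K ^ 3 = 1 * 1 * (44 * 1) ^ 2 * K ^ 3 := by ring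
      _ ≤ K' := by
          rw [hK']
          gcongr
          norm_num
  refine ⟨K', by linarith, ?_⟩
  intro p S a s κ D I hp hp2 F hD1 hI1 hw hs hsum
  by_contra hcon
  rw [not_le] at hcon
  have hD0 : 0 < D := by linarith
  have hℓ0 : 0 ≤ log D := log_nonneg hD1
  set J : ℝ := D ^ ((2 : ℝ) / 3) with hJ
  have hJ0 : 0 < J := by positivity
  have hJ3 : J ^ 3 = D ^ 2 := by
    rw [hJ, ← rpow_natCast, ← rpow_mul hD0.le, ← rpow_natCast D 2]
    norm_num
  have hJD : J ≤ D := by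
    calc J ≤ D ^ (1 : ℝ) := rpow_le_rpow_of_exponent_le hD1 (by norm_num)
      _ = D := rpow_one _
  set ℓ : ℝ := log D with hℓ
  have hℓ1 : 1 ≤ 1 + ℓ := by linarith
  set P : ℝ := (1 + ℓ) ^ (2 * C + 2) with hP
  have hpow1 : 1 ≤ P := one_le_pow₀ hℓ1
  have hpowℓ : ℓ ≤ P := by
    calc ℓ ≤ 1 + ℓ := by linarith
      _ ≤ P := le_self_pow₀ hℓ1 (by omega)
  have hPℓ : ℓ ^ (2 * C) * ℓ ^ 2 ≤ P := by
    rw [← pow_add]
    exact pow_le_pow_left₀ hℓ0 (by linarith) _
  have hI0 : 0 < I := by linarith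
  have hKP1 : 1 ≤ K' * P := one_le_mul_of_one_le_of_one_le (by linarith) hpow1
  have hX64 : 64 ≤ K' * P * I := by
    calc (64 : ℝ) = 64 * 1 * 1 := by ring
      _ ≤ _ := by gcongr
  have hD64 : 64 ≤ D := by linarith
  have hℓ4 : 4 ≤ ℓ := by
    have h1 : log (64 : ℝ) ≤ log D := log_le_log (by norm_num) hD64
    have h2 : log (64 : ℝ) = 6 * log 2 := by
      rw [show (64 : ℝ) = 2 ^ 6 by norm_num, log_pow]
      push_cast
      ring
    have h3 : (0.6931471803 : ℝ) < log 2 := log_two_gt_d9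
    rw [hℓ]
    linarith
  refine core_large hTB hK hp hp2 F hD64 hI1 hw hs hsum (Bf := B0 * ℓ ^ (2 * C)) ?_ ?_ ?_ ?_
  · have h1 : ((⌈ℓ⌉₊ : ℝ) + 2) * (3 * ℓ) ≤ 6 * ℓ ^ 2 := by
      have h2 : (⌈ℓ⌉₊ : ℝ) < ℓ + 1 := Nat.ceil_lt_add_one hℓ0
      calc ((⌈ℓ⌉₊ : ℝ) + 2) * (3 * ℓ) ≤ (2 * ℓ) * (3 * ℓ) :=
            mul_le_mul_of_nonneg_right (by linarith) (by linarith)
        _ = 6 * ℓ ^ 2 := by ring
    have h3 : (((⌈ℓ⌉₊ : ℝ) + 2) * (3 * ℓ)) ^ C ≤ (6 * ℓ ^ 2) ^ C :=
      pow_le_pow_left₀ (by positivity) h1 C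
    calc exp 3 * (((⌈ℓ⌉₊ : ℝ) + 2) * (3 * ℓ)) ^ C ≤ exp 3 * (6 * ℓ ^ 2) ^ C :=
          mul_le_mul_of_nonneg_left h3 (exp_pos _).le
      _ = B0 * ℓ ^ (2 * C) := by
          rw [hB0, mul_pow, ← pow_mul, mul_assoc]
  · calc 64 * (B0 * ℓ ^ (2 * C)) * (44 * K) ^ 2 * K ^ 3 * ℓ ^ 2 * I ^ 3
        = K' * (ℓ ^ (2 * C) * ℓ ^ 2) * I ^ 3 := by rw [hK']; ring
      _ ≤ K' * P * I ^ 3 := by gcongr
      _ ≤ (K' * P * I) ^ 3 := by
          have h1 : K' * P ≤ (K' * P) ^ 3 := le_self_pow₀ hKP1 (by norm_num)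
          rw [mul_pow (K' * P) I 3]
          exact mul_le_mul_of_nonneg_right h1 (by positivity)
      _ ≤ J ^ 3 := pow_le_pow_left₀ (by positivity) hcon.le 3
      _ = D ^ 2 := hJ3
  · have h1 : 32 * K ^ 2 ≤ K' := by
      have : K ^ 2 ≤ K ^ 3 := pow_le_pow_right₀ hK (by norm_num)
      linarith [hK1 3]
    calc 32 * K ^ 2 * ℓ * I ≤ K' * P * I := by gcongr
      _ ≤ D := by linarith
  · have h1 : 44 * K ^ 3 ≤ K' := by linarith [hK1 3]
    calc 44 * K * (K * I) ^ 2 * ℓ = (44 * K ^ 3 * ℓ) * I ^ 2 := by ring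
      _ ≤ (K' * P) * I ^ 2 := by gcongr
      _ ≤ (K' * P) ^ 2 * I ^ 2 := by
          have h1 : K' * P ≤ (K' * P) ^ 2 := le_self_pow₀ hKP1 (by norm_num)
          exact mul_le_mul_of_nonneg_right h1 (by positivity)
      _ = (K' * P * I) ^ 2 := by ring
      _ ≤ D ^ 2 := pow_le_pow_left₀ (by positivity) (by linarith) 2

/-- the core statement -/
theorem core : ∃ C : ℕ, ∀ K : ℝ, 1 ≤ K → ∃ K' : ℝ, 1 ≤ K' ∧
    ∀ (p : ℕ) (S : Finset ℕ) (a s κ : ℕ → ℕ) (D I : ℝ), p.Prime → p ≠ 2 → Fam1 p S a s κ →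
      1 ≤ D → 1 ≤ I → (∀ r ∈ S, (κ r : ℝ) * log p ≤ K * I) → ∑ r ∈ S, log (s r : ℝ) ≤ I →
      D ≤ K * ∑ r ∈ S, (κ r : ℝ) * log p →
      D ^ ((2 : ℝ) / 3) ≤ K' * (1 + log D) ^ C * I := by
  obtain ⟨C, -, hTB⟩ := tuple_bound
  exact ⟨2 * C + 2, fun K hK => core_of_tuple hTB K hK⟩

end Pool.Agent.MP_f02ea4.TB
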