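import Pool.Agent.Lib.MP_f02ea4_nt.IP.Final
import Pool.Agent.Lib.MP_f02ea4_nt.TB.Good
import Pool.Agent.Lib.MP_f02ea4_nt.TB.Core

/-! The index of an odd perfect number at a prime power component: the lower bound
`exp (c (log N) ^ (2 / 3) / (1 + log log N) ^ C)`. -/

set_option autoImplicit false

namespace Pool.Agent.MP_f02ea4.TB

open Finset Real
open Pool.Agent.Lib.MP_f02ea4_nt
open Pool.Agent.Lib.MP_f02ea4_nt.Idx
open Pool.Agent.Lib.MP_f02ea4_nt.LP
open Pool.Agent.Lib.MP_f02ea4_nt.BK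
open ArithmeticFunction (sigma)

/-- `(log N) ^ (2 / 3) / (1 + log log N) ^ C` -/
noncomputable def gain (C : ℕ) (x : ℝ) : ℝ := x ^ ((2 : ℝ) / 3) / (1 + log x) ^ C

lemma gain_nonneg (C : ℕ) {x : ℝ} (hx : 1 ≤ x) : 0 ≤ gain C x := by
  have h1 : 0 ≤ log x := log_nonneg hx
  have h2 : 0 < x := by linarith
  unfold gain
  positivity

lemma gain_le (C : ℕ) {x : ℝ} (hx : 1 ≤ x) : gain C x ≤ x := by
  have h1 : 0 ≤ log x := log_nonneg hx
  have h2 : 0 < x := by linarith
  have h3 : 1 ≤ (1 + log x) ^ C := one_le_pow₀ (by linarith)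
  unfold gain
  rw [div_le_iff₀ (by linarith)]
  have h4 : x ^ ((2 : ℝ) / 3) ≤ x := by
    calc x ^ ((2 : ℝ) / 3) ≤ x ^ (1 : ℝ) := rpow_le_rpow_of_exponent_le hx (by norm_num)
      _ = x := rpow_one _
  calc x ^ ((2 : ℝ) / 3) ≤ x := h4
    _ ≤ x * (1 + log x) ^ C := le_mul_of_one_le_right h2.le h3

/-- from the core bound to `gain` -/
lemma gain_le_of {C : ℕ} {x D B K I : ℝ} (hx : 1 ≤ x) (hD : 1 ≤ D) (hB : 1 ≤ B)
    (hxD : x ≤ B * D) (hDx : D ≤ B * x) (hI : 0 ≤ K * I)
    (h : D ^ ((2 : ℝ) / 3) ≤ K * (1 + log D) ^ C * I) :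
    gain C x ≤ B * (1 + log B) ^ C * (K * I) := by
  have hx0 : 0 < x := by linarith
  have hD0 : 0 < D := by linarith
  have hB0 : 0 < B := by linarith
  have hlx : 0 ≤ log x := log_nonneg hx
  have hlB : 0 ≤ log B := log_nonneg hB
  have hlD : 0 ≤ log D := log_nonneg hD
  have h1 : x ^ ((2 : ℝ) / 3) ≤ B * D ^ ((2 : ℝ) / 3) := by
    calc x ^ ((2 : ℝ) / 3) ≤ (B * D) ^ ((2 : ℝ) / 3) := rpow_le_rpow hx0.le hxD (by norm_num)
      _ = B ^ ((2 : ℝ) / 3) * D ^ ((2 : ℝ) / 3) := mul_rpow hB0.le hD0.le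
      _ ≤ B * D ^ ((2 : ℝ) / 3) := by
          apply mul_le_mul_of_nonneg_right _ (by positivity)
          calc B ^ ((2 : ℝ) / 3) ≤ B ^ (1 : ℝ) := rpow_le_rpow_of_exponent_le hB (by norm_num)
            _ = B := rpow_one _
  have h2 : (1 + log D) ^ C ≤ (1 + log B) ^ C * (1 + log x) ^ C := by
    rw [← mul_pow]
    apply pow_le_pow_left₀ (by linarith)
    have h3 : log D ≤ log B + log x := by
      rw [← log_mul hB0.ne' hx0.ne']
      exact log_le_log hD0 hDx
    have h4 : 0 ≤ log B * log x := mul_nonneg hlB hlx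
    calc 1 + log D ≤ 1 + (log B + log x) + log B * log x := by linarith
      _ = (1 + log B) * (1 + log x) := by ring
  have h5 : 0 < (1 + log x) ^ C := by positivity
  unfold gain
  rw [div_le_iff₀ h5]
  calc x ^ ((2 : ℝ) / 3) ≤ B * D ^ ((2 : ℝ) / 3) := h1
    _ ≤ B * (K * (1 + log D) ^ C * I) := mul_le_mul_of_nonneg_left h hB0.le
    _ = (B * (K * I)) * (1 + log D) ^ C := by ring
    _ ≤ (B * (K * I)) * ((1 + log B) ^ C * (1 + log x) ^ C) :=
        mul_le_mul_of_nonneg_left h2 (by positivity)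
    _ = _ := by ring

theorem index_bound : ∃ C : ℕ, ∃ c : ℝ, 0 < c ∧ ∀ {N p k M : ℕ}, Odd N → Nat.Perfect N →
    p.Prime → ¬ p ∣ M → N = p ^ k * M →
      c * gain C (log (N : ℝ)) ≤ log ((sigma 1 M / p ^ k : ℕ) : ℝ) := by
  obtain ⟨C, hcore⟩ := core
  obtain ⟨K, hK1, hcore'⟩ := hcore 40000 (by norm_num)
  have hK0 : 0 < K := by linarith
  have hl3 : 0 ≤ log (3 : ℝ) := log_nonneg (by norm_num)
  have hB0 : 0 < 3 * (1 + log 3) ^ C * (2 * K) := by positivity
  refine ⟨C, min (1 / 20001) (1 / (3 * (1 + log 3) ^ C * (2 * K))),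
    lt_min (by norm_num) (by positivity), ?_⟩
  intro N p k M hN hperf hp hpM hNM
  set lI : ℝ := log ((sigma 1 M / p ^ k : ℕ) : ℝ) with hlI
  have hI0 : 0 ≤ lI := log_natCast_nonneg _
  have hNpos : (0 : ℝ) < N := by exact_mod_cast hperf.2
  have hN3 : (3 : ℝ) ≤ N := by
    have h4 := hperf.2
    have hN' := hN
    obtain ⟨j, hj⟩ := hN'
    have h5 : N ≠ 1 := by
      rintro rfl
      have := hperf.1
      simp at this
    have h6 : 3 ≤ N := by omega
    exact_mod_cast h6
  have hx1 : 1 ≤ log (N : ℝ) := by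
    rw [le_log_iff_exp_le hNpos]
    have h4 : exp 1 < 2.7182818286 := exp_one_lt_d9
    linarith
  have hg0 := gain_nonneg C hx1
  have hsmall : log (N : ℝ) ≤ 20001 * lI →
      min (1 / 20001) (1 / (3 * (1 + log 3) ^ C * (2 * K))) * gain C (log (N : ℝ)) ≤ lI := by
    intro h
    calc min (1 / 20001) (1 / (3 * (1 + log 3) ^ C * (2 * K))) * gain C (log (N : ℝ))
        ≤ 1 / 20001 * gain C (log (N : ℝ)) := mul_le_mul_of_nonneg_right (min_le_left _ _) hg0
      _ ≤ 1 / 20001 * log N := mul_le_mul_of_nonneg_left (gain_le C hx1) (by norm_num)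
      _ ≤ lI := by linarith
  rcases Nat.lt_or_ge k 280 with hk | hk
  · apply hsmall
    have h1 := IP.log_le_of_small hN hperf hp hpM hNM hk
    rw [← hlI] at h1
    linarith
  · obtain ⟨hdM, i, F, W, f, H⟩ := exists_data hN hperf hp hpM hNM (by omega)
    have hli : lI = log i := by rw [hlI, H.hidiv]
    have hi2 : (2 : ℝ) ≤ i := by exact_mod_cast H.hi2
    have hlog2 : (0.6931471803 : ℝ) < log 2 := log_two_gt_d9
    have hli2 : log 2 ≤ lI := by
      rw [hli]
      exact log_le_log (by norm_num) hi2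
    have hlogN := H.hlogN
    rw [← hli] at hlogN
    rcases le_or_gt ((k : ℝ) * log p) (10000 * lI) with hcase | hcase
    · apply hsmall
      linarith
    · obtain ⟨S, hSM, hfam, hw, hs, hsum⟩ := good_family hp hk H
      rw [← hli] at hw hs hsum
      have hp3 := H.hp3
      have hp3r : (3 : ℝ) ≤ p := by exact_mod_cast hp3
      have hP1 : 1 ≤ log (p : ℝ) := by
        rw [le_log_iff_exp_le (by linarith)]
        have h4 : exp 1 < 2.7182818286 := exp_one_lt_d9
        linarith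
      have hk280 : (280 : ℝ) ≤ k := by exact_mod_cast hk
      have hD1 : 1 ≤ (k : ℝ) * log p := by nlinarith
      have h8 : (k : ℝ) * log p ≤ log N := by
        have h9 : (p : ℝ) ^ k ≤ N := by
          have h10 : p ^ k ≤ N := by
            apply Nat.le_of_dvd hperf.2
            rw [hNM]
            exact dvd_mul_right _ _
          exact_mod_cast h10
        have h11 := log_le_log (by positivity) h9
        rwa [log_pow] at h11
      have h14 := hcore' p S _ W F ((k : ℝ) * log p) (2 * lI) hp (by omega) hfam hD1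
        (by linarith) (fun r hr => (hw r hr).trans (by linarith)) (by linarith) (by
          have : 0 ≤ ∑ r ∈ S, (F r : ℝ) * log p := Finset.sum_nonneg (fun r _ => by positivity)
          linarith)
      have h15 : log (N : ℝ) ≤ 3 * ((k : ℝ) * log p) := by linarith
      have h16 := gain_le_of (B := 3) hx1 hD1 (by norm_num) h15 (by linarith)
        (by positivity) h14
      calc min (1 / 20001) (1 / (3 * (1 + log 3) ^ C * (2 * K))) * gain C (log (N : ℝ))
          ≤ 1 / (3 * (1 + log 3) ^ C * (2 * K)) * gain C (log (N : ℝ)) :=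
            mul_le_mul_of_nonneg_right (min_le_right _ _) hg0
        _ ≤ 1 / (3 * (1 + log 3) ^ C * (2 * K)) * (3 * (1 + log 3) ^ C * (K * (2 * lI))) :=
            mul_le_mul_of_nonneg_left h16 (by positivity)
        _ = lI := by
            field_simp

end Pool.Agent.MP_f02ea4.TB
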