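import Pool.Agent.Lib.MP_f02ea4_nt.Mg.G015
import Pool.Agent.Lib.MP_f02ea4_nt.IP.LPFinal2
import Pool.Agent.Lib.MP_f02ea4_nt.TB.IPFinal

/-! Largest prime factor of an odd perfect number: the final statement with
`exp (c (log N) ^ (2 / 3) / (1 + log log N) ^ C)`. -/

set_option autoImplicit false

namespace Pool.Agent.MP_f02ea4.TB

open Finset Real
open Pool.Agent.Lib.MP_f02ea4_nt
open Pool.Agent.Lib.MP_f02ea4_nt.LP (Data main_data)
open Pool.Agent.Lib.MP_f02ea4_nt.IP
open ArithmeticFunction (sigma)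

/-- the structure theorem with the exponent `2 / 3` -/
theorem LP_structure : ∃ C : ℕ, ∃ K : ℝ, 0 < K ∧
    ∀ {q b m c f P : ℕ} {S : Finset ℕ} {e s g h d : ℕ → ℕ}, Data q b m c f P S e s g h d →
      (((b : ℝ) + 1) * log q) ^ ((2 : ℝ) / 3) ≤
        K * (1 + log (((b : ℝ) + 1) * log q)) ^ C * (1 + log ((m * c : ℕ) : ℝ)) := by
  obtain ⟨K₁, hK₁, hmain⟩ := main_data
  obtain ⟨C, hcore⟩ := core
  set K₃ : ℝ := 616 * K₁ + 20015 with hK₃
  obtain ⟨K, hK, hcore'⟩ := hcore K₃ (by linarith)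
  refine ⟨C, 10 ^ 6 + K, by positivity, ?_⟩
  intro q b m c f P S e s g h d D
  have h1 := hmain D
  set F := log ((m * c : ℕ) : ℝ) with hFdef
  set L := log (q : ℝ) with hLdef
  set a : ℝ := (b : ℝ) + 1 with ha
  have hL1 : 1 ≤ L := D.L1
  have hF0 : 0 ≤ F := D.F0
  have hb2 : (2 : ℝ) ≤ b := by exact_mod_cast D.hb
  have ha3 : 3 ≤ a := by linarith
  have hy3 : 3 ≤ a * L := by nlinarith
  have hl0 : 0 ≤ log (a * L) := log_nonneg (by linarith)
  have hp1 : 1 ≤ (1 + log (a * L)) ^ C := one_le_pow₀ (by linarith)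
  have hK0 : 0 < K := by linarith
  rcases le_or_gt (F * 10 ^ 6) (a * L) with hF6 | hF6
  · obtain ⟨S2, hS2, hgood, hw, hsum⟩ := LP_class2 D hF6
    have hKF : 0 ≤ K₁ * F := by positivity
    have hsq : √(a * L) ≤ (a + L) / 2 := by
      rw [sqrt_le_left (by linarith)]
      nlinarith [sq_nonneg (a - L)]
    have hI := hcore' q S2 e s g (a * L) (1 + F) D.hq D.hq2 (D.fam hS2 hgood) (by linarith)
      (by linarith) ?_ ?_ ?_
    · refine hI.trans ?_
      gcongr
      linarith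
    · intro r hr
      refine (hw r hr).trans ?_
      rw [hK₃]
      nlinarith
    · have h2 := D.sum_log_sub hS2
      linarith
    · refine hsum.trans ?_
      apply mul_le_mul_of_nonneg_right (by linarith)
      exact Finset.sum_nonneg fun r _ => mul_nonneg (Nat.cast_nonneg _) (by linarith)
  · calc (a * L) ^ ((2 : ℝ) / 3) ≤ (a * L) ^ (1 : ℝ) :=
            rpow_le_rpow_of_exponent_le (by linarith) (by norm_num)
      _ = a * L := rpow_one _
      _ ≤ (10 ^ 6 + K) * 1 * (1 + F) := by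
          have h2 : 0 ≤ K * (1 + F) := by positivity
          linarith
      _ ≤ (10 ^ 6 + K) * (1 + log (a * L)) ^ C * (1 + F) := by gcongr

/-- the data with the bound for `gain` -/
theorem LP_all : ∃ C : ℕ, ∃ K : ℝ, 0 < K ∧ ∀ {N P q : ℕ},
    Odd N → Nat.Perfect N → P.Prime → N.factorization P = 1 → q.Prime → q ∣ N →
    P ∣ sigma 1 (q ^ N.factorization q) →
    ∃ F : ℝ, 0 ≤ F ∧ (P : ℝ) ^ 3 * exp F ≤ 6 * N ∧
      (log N ≤ 6 * log P → gain C (log N) ≤ K * (1 + F)) := by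
  obtain ⟨C, K, hK, hmain⟩ := LP_structure
  have hl6 : 0 ≤ log (6 : ℝ) := log_nonneg (by norm_num)
  refine ⟨C, 6 * (1 + log 6) ^ C * K, by positivity, ?_⟩
  intro N P q hN hperf hP hPN hq hqN hPq
  obtain ⟨m, c, f, S, e, s, g, h, d, D, hsize, -⟩ := exists_dataE hN hperf hP hPN hq hqN hPq
  set b := N.factorization q with hb
  have hmC1 : (1 : ℝ) ≤ ((m * c : ℕ) : ℝ) := D.mC1
  have hF0 : 0 ≤ log ((m * c : ℕ) : ℝ) := log_nonneg hmC1
  have h0 := hmain D
  set F := log ((m * c : ℕ) : ℝ) with hF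
  have hL1 : 1 ≤ log (q : ℝ) := D.L1
  have hP0 : (0 : ℝ) < P := by exact_mod_cast hP.pos
  have hb2 : (2 : ℝ) ≤ b := by exact_mod_cast D.hb
  set y : ℝ := ((b : ℝ) + 1) * log q with hy
  have hy3 : 3 ≤ y := by nlinarith
  have hPy : log (P : ℝ) ≤ y := by
    have h1 : P ≤ q ^ (b + 1) := by
      have h2 := D.sigq
      have h3 : 1 * P ≤ (q - 1) * (m * P) := by
        rw [← mul_assoc]
        apply Nat.mul_le_mul_right
        have h4 := D.hm
        have h5 := D.q3
        exact Nat.mul_pos (by omega) h4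
      omega
    have h2 : (P : ℝ) ≤ (q : ℝ) ^ (b + 1) := by exact_mod_cast h1
    have h3 := log_le_log hP0 h2
    rw [log_pow] at h3
    push_cast at h3
    exact h3
  have hq0 : (0 : ℝ) < q := by exact_mod_cast hq.pos
  have hbN : (b : ℝ) * log q ≤ log N := by
    have h1 : q ^ b ≤ N := Nat.le_of_dvd hperf.2 (Nat.ordProj_dvd N q)
    have h2 : (q : ℝ) ^ b ≤ N := by exact_mod_cast h1
    have h3 := log_le_log (by positivity) h2
    rwa [log_pow] at h3
  have hyN : y ≤ 6 * log N := by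
    have h1 : y ≤ 2 * (b * log q) := by
      rw [hy]
      nlinarith
    have h2 : 0 ≤ log (N : ℝ) := log_natCast_nonneg N
    linarith
  have hN1 : 1 ≤ log (N : ℝ) := by
    nlinarith
  refine ⟨F, hF0, ?_, ?_⟩
  · rw [hF, exp_log (by linarith)]
    exact_mod_cast hsize
  · intro hx
    have h2 := gain_le_of (B := 6) hN1 (by linarith : 1 ≤ y) (by norm_num) (by linarith)
      hyN (by positivity) h0
    refine h2.trans (le_of_eq ?_)
    ring

theorem LP_pre : ∃ C : ℕ, ∃ c₀ : ℝ, 0 < c₀ ∧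
    ∀ N : ℕ, Odd N → Nat.Perfect N → ∀ P : ℕ, P.Prime → P ∣ N →
      c₀ * (P : ℝ) ^ 3 * exp (gain C (log N)) ^ c₀ ≤ N := by
  obtain ⟨C, K, hK, hall⟩ := LP_all
  set c := min (1 / K) (1 / 200 : ℝ) with hc
  have hc0 : 0 < c := lt_min (by positivity) (by norm_num)
  have hcK : c * K ≤ 1 := by
    have : c ≤ 1 / K := min_le_left _ _
    rwa [le_div_iff₀ hK] at this
  have hc200 : c ≤ 1 / 200 := min_le_right _ _
  have hlogc : log c ≤ -5 := by
    have h1 : log c ≤ log (1 / 200 : ℝ) := log_le_log hc0 hc200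
    have h2 : log (1 / 200 : ℝ) ≤ -5 := by
      rw [log_le_iff_le_exp (by norm_num)]
      have h3 : exp 5 ≤ 200 := by
        have he : exp 1 < (2.7182818286 : ℝ) := exp_one_lt_d9
        have h4 : exp 5 = exp 1 ^ 5 := by rw [← exp_nat_mul]; norm_num
        rw [h4]
        calc exp 1 ^ 5 ≤ (2.7182818286 : ℝ) ^ 5 :=
              pow_le_pow_left₀ (exp_pos _).le he.le 5
          _ ≤ 200 := by norm_num
      rw [exp_neg]
      rw [one_div]
      exact inv_anti₀ (exp_pos _) h3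
    linarith
  refine ⟨C, c, hc0, ?_⟩
  intro N hN hperf P hP hPN
  have hN0 : 0 < N := hperf.2
  have hNr : (1 : ℝ) ≤ N := by exact_mod_cast hN0
  have hNp : (0 : ℝ) < N := by linarith
  set x := log (N : ℝ) with hx
  -- from logarithms to the statement
  have key : log c + 3 * log P + c * gain C x ≤ x →
      c * (P : ℝ) ^ 3 * exp (gain C x) ^ c ≤ N := by
    intro hz
    have hP0 : (0 : ℝ) < P := by exact_mod_cast hP.pos
    rw [← log_le_log_iff (by positivity) hNp, log_mul (by positivity) (by positivity),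
      log_rpow (exp_pos _), log_exp, log_mul (by positivity) (by positivity), log_pow]
    push_cast
    linarith
  have hx1 : 1 ≤ x := by
    have h3 : 3 ≤ N := by
      have h4 := Nat.le_of_dvd hN0 hPN
      have h5 := hP.two_le
      obtain ⟨j, hj⟩ := hN
      omega
    have h3' : (3 : ℝ) ≤ N := by exact_mod_cast h3
    rw [hx, le_log_iff_exp_le hNp]
    have h4 : exp 1 < 2.7182818286 := exp_one_lt_d9
    linarith
  have hxθ : gain C x ≤ x := gain_le C hx1
  have hxθ0 : 0 ≤ gain C x := gain_nonneg C hx1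
  have hcx : c * gain C x ≤ 1 / 200 * x := mul_le_mul hc200 hxθ hxθ0 (by norm_num)
  have hlP : 0 ≤ log (P : ℝ) := log_natCast_nonneg P
  have hfac : N.factorization P = 1 ∨ 2 ≤ N.factorization P := by
    have := hP.factorization_pos_of_dvd hN0.ne' hPN
    omega
  rcases hfac with h3 | h3
  · rcases le_or_gt x (6 * log (P : ℝ)) with h4 | h4
    · obtain ⟨q, hq, hqN, hPq⟩ := LP.exists_payer hN hperf hP h3
      obtain ⟨F, hF, hs, hF2⟩ := hall hN hperf hP h3 hq hqN hPq
      exact LP_toN hc0 hcK (by linarith) (Nat.cast_nonneg _) hNp.le hF hs (hF2 h4)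
    · apply key
      linarith
  · apply key
    have h1 := LP.pow_four_le hN hperf hP h3
    have hP0 : (0 : ℝ) < P := by exact_mod_cast hP.pos
    have h2 : (P : ℝ) ^ 4 ≤ 2 * N := by exact_mod_cast h1
    have h4 := log_le_log (by positivity) h2
    rw [log_pow, log_mul (by norm_num) (by positivity)] at h4
    have h5 : log 2 < (0.6931471808 : ℝ) := log_two_lt_d9
    push_cast at h4
    linarith

/-- the bound for every prime factor -/
theorem LP_first : ∃ C : ℕ, ∃ c : ℝ, 0 < c ∧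
    ∀ N : ℕ, Odd N → Nat.Perfect N → ∀ P : ℕ, P.Prime → P ∣ N →
      (P : ℝ) ^ 3 * exp (c * gain C (log N)) < 3 * N := by
  obtain ⟨C, c₀, hc₀, h⟩ := LP_pre
  obtain ⟨c₁, hc₁, h1⟩ := LP.final2
  set K : ℝ := 1 + 2 / c₀ * |log (1 / c₀)| with hK
  have hK1 : 1 ≤ K := by
    have : 0 ≤ 2 / c₀ * |log (1 / c₀)| := by positivity
    linarith
  have hK0 : 0 < K := by linarith
  set c := min (c₀ / 2) (c₁ / K) with hc
  have hc0 : 0 < c := lt_min (by positivity) (by positivity)
  have hcc : c ≤ c₀ / 2 := min_le_left _ _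
  have hcK : c * K ≤ c₁ := by
    have : c ≤ c₁ / K := min_le_right _ _
    rwa [le_div_iff₀ hK0] at this
  have hcl : c * (2 / c₀ * log (1 / c₀)) ≤ c₁ := by
    refine le_trans (mul_le_mul_of_nonneg_left ?_ hc0.le) hcK
    have h2 : 2 / c₀ * log (1 / c₀) ≤ 2 / c₀ * |log (1 / c₀)| :=
      mul_le_mul_of_nonneg_left (le_abs_self _) (by positivity)
    linarith
  refine ⟨C, c, hc0, ?_⟩
  intro N hN hperf P hP hPN
  have hA1 := h N hN hperf P hP hPN
  obtain ⟨hB1, -, -⟩ := h1 N hN hperf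
  have hN1 : (1 : ℝ) ≤ N := by exact_mod_cast hperf.2
  have hNp : (0 : ℝ) < N := by linarith
  have hN3 : 3 ≤ N := by
    have h4 := Nat.le_of_dvd hperf.2 hPN
    have h5 := hP.two_le
    obtain ⟨j, hj⟩ := hN
    omega
  have hx1 : 1 ≤ log (N : ℝ) := by
    have h2 : log 3 ≤ log (N : ℝ) := log_le_log (by norm_num) (by exact_mod_cast hN3)
    exact LP.log3_ge.trans h2
  have hy1 : 1 ≤ √(log (N : ℝ)) := by
    rw [one_le_sqrt]
    exact hx1
  have hP0 : (0 : ℝ) < P := by exact_mod_cast hP.pos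
  have h2 : exp (c * gain C (log (N : ℝ))) = exp (gain C (log (N : ℝ))) ^ c := by
    rw [← exp_mul]; congr 1; ring
  rw [h2]
  exact LP_absorb hc₀ hc0 hcc hc₁.le hcl hP0 (one_le_exp (gain_nonneg C hx1)) hy1 hNp
    hA1 (hB1 P hP hPN)

end Pool.Agent.MP_f02ea4.TB
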